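import Mathlib
import Pool.Graph.R_seed8.Y263.GF.Ball

/-!
Carleson's theorem on the disc, in the form in which it is used here.
-/

set_option autoImplicit false

open Metric Set Filter Topology

namespace Pool.Agent.Helper60.CB

open Pool.Agent.Y263.GF (AF loc_aff)
open Pool.Agent.Y263.LF (Bez Bez.mono)

theorem id_AF : AF (ball (0 : ℂ) 1) (fun z : ℂ => z) := by
  refine ⟨differentiableOn_id, fun z _ z' _ => ?_⟩
  have h1 : fderiv ℂ (fun z : ℂ => z) z = ContinuousLinearMap.id ℂ ℂ := fderiv_fun_id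
  rw [h1]
  simp only [ContinuousLinearMap.id_apply]
  exact sub_eq_zero.symm

theorem disc_one (n : ℕ) {ε : ℝ} (hε : 0 < ε) :
    ∃ C : ℝ, 0 ≤ C ∧ ∀ φ : Fin n → ℂ → ℂ, (∀ i, DifferentiableOn ℂ (φ i) (ball 0 1)) →
      (∀ i, ∀ w ∈ ball (0 : ℂ) 1, ‖φ i w‖ ≤ 1 / ε) →
      (∀ w ∈ ball (0 : ℂ) 1, ε ≤ ∑ i, ‖φ i w‖) →
      ∃ g : Fin n → ℂ → ℂ, (∀ i, DifferentiableOn ℂ (g i) (ball 0 1)) ∧
        (∀ i, ∀ w ∈ ball (0 : ℂ) 1, ‖g i w‖ ≤ C) ∧ ∀ w ∈ ball (0 : ℂ) 1, ∑ i, φ i w * g i w = 1 := by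
  obtain ⟨C, hC, H⟩ := loc_aff 1 n 0 (ε := ε ^ 2 / (n + 1)) (Q := 0) (by positivity) le_rfl
  refine ⟨ε * C, by positivity, fun φ hφ hφb hφl => ?_⟩
  have hnorm : ∀ x : ℂ, ‖(ε : ℂ) * x‖ = ε * ‖x‖ := fun x => by
    rw [norm_mul, Complex.norm_real, Real.norm_of_nonneg hε.le]
  obtain ⟨g, g1, g2, g3⟩ := H ℂ (fun _ z => z) (fun k _ w => ε * φ k w) (fun _ => id_AF)
    (fun _ z hz => mem_ball_zero_iff.1 hz) (fun k _ => (hφ k).const_mul _)
    (fun k _ z hz => by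
      rw [hnorm]
      have h1 := mul_le_mul_of_nonneg_left (hφb k z hz) hε.le
      rwa [mul_one_div, div_self hε.ne'] at h1)
    (fun j _ => 0) (fun j => differentiableOn_const _) (fun j z _ => by simp)
    (by
      refine ⟨fun _ _ => 0, fun _ => differentiableOn_const _, fun _ z _ => by simp, ?_⟩
      rintro z ⟨hz, hzk⟩
      exfalso
      have hz' : z ∈ ball (0 : ℂ) 1 := mem_ball_zero_iff.2 hz
      have h1 := hφl z hz'
      have h2 : ∑ i, ‖φ i z‖ ≤ ∑ _i : Fin n, ε / (n + 1) := by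
        refine Finset.sum_le_sum fun i _ => ?_
        have h3 := hzk i 0
        rw [hnorm] at h3
        have h4 : ε ^ 2 / ((n : ℝ) + 1) = ε * (ε / (n + 1)) := by ring
        rw [h4] at h3
        exact (lt_of_mul_lt_mul_left h3 hε.le).le
      rw [Finset.sum_const, Finset.card_univ, Fintype.card_fin, nsmul_eq_mul] at h2
      have h5 : (n : ℝ) * (ε / (n + 1)) < ε := by
        rw [mul_div_assoc', div_lt_iff₀ (by positivity)]
        nlinarith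
      linarith)
  refine ⟨fun i w => ε * g (Sum.inl (i, 0)) w, fun i => (g1 _).const_mul _, fun i w hw => ?_,
    fun w hw => ?_⟩
  · rw [hnorm]
    exact mul_le_mul_of_nonneg_left (g2 _ w hw) hε.le
  · rw [← g3 w hw]
    simp only [Fintype.sum_sum_type, Sum.elim_inl, Finset.univ_eq_empty,
      Finset.sum_empty, Fintype.sum_prod_type, Finset.univ_unique, Fin.default_eq_zero,
      Finset.sum_singleton, add_zero]
    exact Finset.sum_congr rfl fun i _ => by ring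

/-- **Carleson's theorem** -/
theorem disc_cor (K : ℕ) {ε : ℝ} (hε : 0 < ε) :
    ∃ C : ℝ, 0 ≤ C ∧ ∀ n ≤ K, ∀ φ : Fin n → ℂ → ℂ, (∀ i, DifferentiableOn ℂ (φ i) (ball 0 1)) →
      (∀ i, ∀ w ∈ ball (0 : ℂ) 1, ‖φ i w‖ ≤ 1 / ε) →
      (∀ w ∈ ball (0 : ℂ) 1, ε ≤ ∑ i, ‖φ i w‖) →
      ∃ g : Fin n → ℂ → ℂ, (∀ i, DifferentiableOn ℂ (g i) (ball 0 1)) ∧
        (∀ i, ∀ w ∈ ball (0 : ℂ) 1, ‖g i w‖ ≤ C) ∧ ∀ w ∈ ball (0 : ℂ) 1, ∑ i, φ i w * g i w = 1 := by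
  choose C hC H using fun n : ℕ => disc_one n hε
  refine ⟨∑ n ∈ Finset.range (K + 1), C n, Finset.sum_nonneg fun n _ => hC n, fun n hn φ h1 h2 h3 => ?_⟩
  obtain ⟨g, g1, g2, g3⟩ := H n φ h1 h2 h3
  refine ⟨g, g1, fun i w hw => (g2 i w hw).trans ?_, g3⟩
  exact Finset.single_le_sum (f := C) (fun n _ => hC n) (Finset.mem_range.2 (by omega))

end Pool.Agent.Helper60.CB
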