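import Mathlib

/-!
A holomorphic function on a connected open subset of a normed space is constant, or its range is open.
-/

set_option autoImplicit false

open Metric Set Filter Topology

namespace Pool.Agent.Helper60.CB

variable {E : Type} [NormedAddCommGroup E] [NormedSpace ℂ E]

/-- the parameters of a complex line for which the line is in a ball -/
def disc (x v c : E) (r : ℝ) : Set ℂ := (fun t : ℂ => x + t • v) ⁻¹' ball c r

theorem disc_open (x v c : E) (r : ℝ) : IsOpen (disc x v c r) :=
  isOpen_ball.preimage (continuous_const.add (continuous_id.smul continuous_const))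

theorem disc_conn (x v c : E) (r : ℝ) : IsPreconnected (disc x v c r) := by
  let _ : NormedSpace ℝ E := NormedSpace.restrictScalars ℝ ℂ E
  have h1 : Convex ℝ (disc x v c r) := by
    intro a ha b hb s t hs ht hst
    have h2 : Convex ℝ (ball c r) := convex_ball c r
    have h3 := h2 ha hb hs ht hst
    change x + (s • a + t • b) • v ∈ ball c r
    have h4 : x + (s • a + t • b) • v = s • (x + a • v) + t • (x + b • v) := by
      rw [smul_add, smul_add, add_smul]
      have e1 : (s • a) • v = s • (a • v) := by rw [smul_assoc]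
      have e2 : (t • b) • v = t • (b • v) := by rw [smul_assoc]
      rw [e1, e2]
      have e3 : x = s • x + t • x := by rw [← add_smul, hst, one_smul]
      nth_rewrite 1 [e3]
      abel
    rw [h4]
    exact h3
  exact h1.isPreconnected

theorem disc_an {x v c : E} {r : ℝ} {G : E → ℂ} {U : Set E} (hG : DifferentiableOn ℂ G U)
    (hr : ball c r ⊆ U) : AnalyticOnNhd ℂ (fun t : ℂ => G (x + t • v)) (disc x v c r) := by
  refine DifferentiableOn.analyticOnNhd ?_ (disc_open x v c r)
  refine hG.comp (t := U) ?_ fun t ht => hr ht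
  exact ((differentiable_const x).add (differentiable_id.smul_const v)).differentiableOn

theorem const_or_open {U : Set E} (hU : IsOpen U) (hc : IsPreconnected U) {G : E → ℂ}
    (hG : DifferentiableOn ℂ G U) : (∃ w, ∀ z ∈ U, G z = w) ∨ IsOpen (G '' U) := by
  by_cases h : ∃ x ∈ U, ∀ᶠ y in 𝓝 x, G y = G x
  · left
    obtain ⟨x, hx, hxe⟩ := h
    refine ⟨G x, ?_⟩
    set u : Set E := {z | ∀ᶠ y in 𝓝 z, G y = G x} with hu
    have huo : IsOpen u := isOpen_setOfPred_eventually_nhds
    have h1 : U ⊆ u := by
      refine hc.subset_of_closure_inter_subset huo ⟨x, hx, hxe⟩ ?_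
      rintro z ⟨hz, hzU⟩
      obtain ⟨r, hr, hrU⟩ := Metric.isOpen_iff.1 hU z hzU
      obtain ⟨z', hz'u, hz'r⟩ := Metric.mem_closure_iff.1 hz r hr
      have hz'b : z' ∈ ball z r := by rw [mem_ball, dist_comm]; exact hz'r
      refine eventually_iff_exists_mem.2 ⟨ball z r, ball_mem_nhds z hr, fun y hy => ?_⟩
      have h0 : (0 : ℂ) ∈ disc z' (y - z') z r := by
        change z' + (0 : ℂ) • (y - z') ∈ ball z r
        rw [zero_smul, add_zero]
        exact hz'b
      have h1 : (1 : ℂ) ∈ disc z' (y - z') z r := by
        change z' + (1 : ℂ) • (y - z') ∈ ball z r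
        rw [one_smul, add_sub_cancel]
        exact hy
      have h2 : (fun t : ℂ => G (z' + t • (y - z'))) =ᶠ[𝓝 0] fun _ => G x := by
        have h3 : Tendsto (fun t : ℂ => z' + t • (y - z')) (𝓝 0) (𝓝 z') := by
          have h4 : Continuous (fun t : ℂ => z' + t • (y - z')) :=
            continuous_const.add (continuous_id.smul continuous_const)
          have h5 := h4.tendsto 0
          rwa [zero_smul, add_zero] at h5
        exact h3.eventually hz'u
      have h3 := (disc_an (x := z') (v := y - z') hG hrU).eqOn_of_preconnected_of_eventuallyEq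
        (analyticOnNhd_const (v := G x)) (disc_conn _ _ _ _) h0 h2 h1
      simp only [one_smul, add_sub_cancel] at h3
      exact h3
    intro z hz
    exact (h1 hz).self_of_nhds
  · right
    rw [isOpen_iff_mem_nhds]
    rintro _ ⟨z, hz, rfl⟩
    obtain ⟨r, hr, hrU⟩ := Metric.isOpen_iff.1 hU z hz
    have h1 : ∃ y ∈ ball z r, G y ≠ G z := by
      by_contra hcon
      push Not at hcon
      exact h ⟨z, hz, eventually_iff_exists_mem.2 ⟨ball z r, ball_mem_nhds z hr, hcon⟩⟩
    obtain ⟨y, hy, hne⟩ := h1
    have h0 : (0 : ℂ) ∈ disc z (y - z) z r := by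
      change z + (0 : ℂ) • (y - z) ∈ ball z r
      rw [zero_smul, add_zero]
      exact mem_ball_self hr
    have h1 : (1 : ℂ) ∈ disc z (y - z) z r := by
      change z + (1 : ℂ) • (y - z) ∈ ball z r
      rw [one_smul, add_sub_cancel]
      exact hy
    have han := disc_an (x := z) (v := y - z) hG hrU
    rcases (han 0 h0).eventually_constant_or_nhds_le_map_nhds with h2 | h2
    · exfalso
      apply hne
      have h3 := han.eqOn_of_preconnected_of_eventuallyEq
        (analyticOnNhd_const (v := (fun t : ℂ => G (z + t • (y - z))) 0)) (disc_conn _ _ _ _) h0 h2 h1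
      simp only [one_smul, add_sub_cancel, zero_smul, add_zero] at h3
      exact h3
    · have h3 : G (z + (0 : ℂ) • (y - z)) = G z := by
        rw [zero_smul, add_zero]
      rw [h3] at h2
      have h4 : G '' U ∈ map (fun t : ℂ => G (z + t • (y - z))) (𝓝 0) := by
        rw [mem_map]
        filter_upwards [(disc_open z (y - z) z r).mem_nhds h0] with t ht
        exact ⟨z + t • (y - z), hrU ht, rfl⟩
      exact h2 h4

end Pool.Agent.Helper60.CB
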