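import Mathlib
import Pool.Agent.Helper60.CB.Open
import Pool.Agent.Helper60.CB.Disc
import Pool.Agent.Helper60.CO.Area5

/-!
Bezout equations on connected open sets of a normed space, for functions whose ranges have small area and for
functions of one variable; and solutions from the solutions on the components.
-/

set_option autoImplicit false

open MeasureTheory Metric Set Filter Topology Complex
open scoped ENNReal Real ContDiff

namespace Pool.Agent.Helper60.CB

open Pool.Agent.Y263.LF (Bez Bez.mono)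
open Pool.Agent.Helper60.CO (holo_approx)

variable {E : Type} [NormedAddCommGroup E] [NormedSpace ℂ E]

theorem comp_sol {U : Set (E)} (hU : IsOpen U) (hc : IsPreconnected U) {ι : Type} [Fintype ι]
    {G : ι → E → ℂ} (hG : ∀ i, DifferentiableOn ℂ (G i) U) {B : ℝ}
    (hB : ∀ i, ∀ z ∈ U, ‖G i z‖ ≤ B) {c ε : ℝ} (hε : 0 < ε) (hεc : ε ≤ c)
    (hl : ∀ z ∈ U, c ≤ ∑ i, ‖G i z‖ ^ 2)
    (hv : ∑ i, volume (G i '' U) ≤ ENNReal.ofReal (π * (c - ε))) :
    ∃ k : ι → E → ℂ, (∀ i, DifferentiableOn ℂ (k i) U) ∧ (∀ i, ∀ z ∈ U, ‖k i z‖ ≤ B + √c) ∧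
      ∀ z ∈ U, ε / 2 ≤ ‖∑ i, G i z * k i z‖ := by
  classical
  have hpi := Real.pi_pos
  have hcε : 0 ≤ c - ε := by linarith
  obtain ⟨A, hA⟩ : ∃ A : ι → ℝ, ∀ i, A i = (volume (G i '' U)).toReal := ⟨_, fun _ => rfl⟩
  have hA0 : ∀ i, 0 ≤ A i := fun i => by rw [hA]; exact ENNReal.toReal_nonneg
  have hfin : ∀ i, volume (G i '' U) ≠ ⊤ := by
    intro i hi
    have h1 : volume (G i '' U) ≤ ∑ i, volume (G i '' U) :=
      Finset.single_le_sum (f := fun i => volume (G i '' U)) (fun _ _ => bot_le)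
        (Finset.mem_univ i)
    exact absurd (h1.trans hv) (by rw [hi]; simp)
  have hAv : ∀ i, volume (G i '' U) = ENNReal.ofReal (A i) := fun i => by
    rw [hA, ENNReal.ofReal_toReal (hfin i)]
  have hsum : ∑ i, A i ≤ π * (c - ε) := by
    simp_rw [hAv] at hv
    rw [← ENNReal.ofReal_sum_of_nonneg fun j _ => hA0 j] at hv
    exact (ENNReal.ofReal_le_ofReal_iff (mul_nonneg hpi.le hcε)).1 hv
  have hk : ∀ i, ∃ k : E → ℂ, DifferentiableOn ℂ k U ∧
      ∀ z ∈ U, ‖starRingEnd ℂ (G i z) - k z‖ ≤ √(A i / π) := by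
    intro i
    rcases const_or_open hU hc (hG i) with ⟨w, hw⟩ | hVo
    · refine ⟨fun _ => starRingEnd ℂ w, differentiableOn_const _, fun z hz => ?_⟩
      rw [hw z hz, sub_self, norm_zero]
      exact Real.sqrt_nonneg _
    · have hVR : G i '' U ⊆ ball 0 (|B| + 1) := by
        rintro _ ⟨z, hz, rfl⟩
        rw [mem_ball_zero_iff]
        have h1 := hB i z hz
        have h2 := le_abs_self B
        linarith
      obtain ⟨h, hh1, hh2⟩ := holo_approx hVo (hAv i).le (by positivity) hVR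
      exact ⟨fun z => h (G i z), hh1.comp (hG i) (mapsTo_image _ _), fun z hz =>
        hh2 _ (mem_image_of_mem _ hz)⟩
  choose k hk1 hk2 using hk
  have hAc : ∀ i, A i / π ≤ c := by
    intro i
    have h1 : A i ≤ ∑ i, A i := Finset.single_le_sum (f := A) (fun i _ => hA0 i) (Finset.mem_univ i)
    rw [div_le_iff₀ hpi]
    nlinarith
  refine ⟨k, hk1, fun i z hz => ?_, fun z hz => ?_⟩
  · have h1 := hk2 i z hz
    have h2 : ‖k i z‖ ≤ ‖starRingEnd ℂ (G i z)‖ + ‖starRingEnd ℂ (G i z) - k i z‖ := by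
      calc ‖k i z‖ = ‖starRingEnd ℂ (G i z) - (starRingEnd ℂ (G i z) - k i z)‖ := by
            rw [sub_sub_cancel]
        _ ≤ _ := norm_sub_le _ _
    rw [RCLike.norm_conj] at h2
    have h3 := hB i z hz
    have h4 := Real.sqrt_le_sqrt (hAc i)
    linarith
  · have e1 : ∑ i, G i z * k i z = ((∑ i, ‖G i z‖ ^ 2 : ℝ) : ℂ) -
        ∑ i, G i z * (starRingEnd ℂ (G i z) - k i z) := by
      push_cast
      rw [← Finset.sum_sub_distrib]
      refine Finset.sum_congr rfl fun i _ => ?_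
      rw [mul_sub, Complex.mul_conj, Complex.normSq_eq_norm_sq]
      push_cast
      ring
    have h1 : ‖∑ i, G i z * (starRingEnd ℂ (G i z) - k i z)‖ ≤
        ∑ i, (‖G i z‖ ^ 2 + A i / π) / 2 := by
      refine (norm_sum_le _ _).trans (Finset.sum_le_sum fun i _ => ?_)
      rw [norm_mul]
      have h2 := hk2 i z hz
      have h3 : ‖starRingEnd ℂ (G i z) - k i z‖ ^ 2 ≤ A i / π := by
        have h4 := pow_le_pow_left₀ (norm_nonneg _) h2 2
        rwa [Real.sq_sqrt (div_nonneg (hA0 i) hpi.le)] at h4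
      nlinarith [sq_nonneg (‖G i z‖ - ‖starRingEnd ℂ (G i z) - k i z‖)]
    have h2 : ∑ i, (‖G i z‖ ^ 2 + A i / π) / 2 ≤ (∑ i, ‖G i z‖ ^ 2) / 2 + (c - ε) / 2 := by
      rw [← Finset.sum_div, Finset.sum_add_distrib, ← Finset.sum_div]
      have h3 : (∑ i, A i) / π ≤ c - ε := by
        rw [div_le_iff₀ hpi]
        linarith
      linarith
    have h3 := hl z hz
    have h4 : (∑ i, ‖G i z‖ ^ 2) - ‖∑ i, G i z * (starRingEnd ℂ (G i z) - k i z)‖ ≤
        ‖∑ i, G i z * k i z‖ := by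
      rw [e1]
      refine le_trans ?_ (norm_sub_norm_le _ _)
      rw [Complex.norm_real, Real.norm_of_nonneg (Finset.sum_nonneg fun _ _ => sq_nonneg _)]
    linarith

/-- the alternatives on a component -/
theorem comp_bez {U : Set (E)} (hU : IsOpen U) (hc : IsPreconnected U) {N m : ℕ}
    {F : Fin N → E → ℂ} (hF : ∀ j, DifferentiableOn ℂ (F j) U) {R ε : ℝ} (hR : 0 ≤ R)
    (hFb : ∀ j, ∀ z ∈ U, ‖F j z‖ ≤ R) (hε : 0 < ε) (hm : (m : ℝ) ≤ 1 / ε)
    {G : Fin m → E → ℂ} {H : Fin m → Fin N → E → ℂ}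
    (hH : ∀ i j, DifferentiableOn ℂ (H i j) U) (hHb : ∀ i j, ∀ z ∈ U, ‖H i j z‖ ≤ 1 / ε)
    (hG : ∀ i, ∀ z ∈ U, G i z = ∑ j, F j z * H i j z)
    (h : (∃ i, ∀ z ∈ U, ε ≤ ‖G i z‖) ∨ ∃ c, ε ≤ c ∧ (∀ z ∈ U, c ≤ ∑ i, ‖G i z‖ ^ 2) ∧
      ∑ i, volume (G i '' U) ≤ ENNReal.ofReal (π * (c - ε))) :
    Bez U F (1 / ε * (1 / ε) * (N * R / ε + √(1 / ε * (N * R / ε) ^ 2) + 1) * (2 / ε)) := by
  classical
  obtain ⟨B, hBd⟩ : ∃ B, B = N * R / ε := ⟨_, rfl⟩
  have hB0 : 0 ≤ B := by rw [hBd]; positivity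
  rw [← hBd]
  have hGd : ∀ i, DifferentiableOn ℂ (G i) U := fun i =>
    (DifferentiableOn.fun_sum fun j _ => (hF j).mul (hH i j)).congr (hG i)
  have hGb : ∀ i, ∀ z ∈ U, ‖G i z‖ ≤ B := by
    intro i z hz
    rw [hG i z hz]
    refine (norm_sum_le _ _).trans ?_
    calc ∑ j, ‖F j z * H i j z‖ ≤ ∑ _j : Fin N, R * (1 / ε) := by
          refine Finset.sum_le_sum fun j _ => ?_
          rw [norm_mul]
          exact mul_le_mul (hFb j z hz) (hHb i j z hz) (norm_nonneg _) hR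
      _ = B := by
          rw [Finset.sum_const, Finset.card_univ, Fintype.card_fin, nsmul_eq_mul, hBd]
          ring
  have hs0 : 0 ≤ √(1 / ε * B ^ 2) := Real.sqrt_nonneg _
  have hε1 : 0 < 1 / ε := by positivity
  rcases h with ⟨i, hi⟩ | ⟨c, hεc, hl, hv⟩
  · have hne : ∀ z ∈ U, G i z ≠ 0 := by
      intro z hz h0
      have := hi z hz
      rw [h0, norm_zero] at this
      linarith
    refine ⟨fun j z => H i j z * (G i z)⁻¹, fun j => (hH i j).mul ((hGd i).inv hne),
      fun j z hz => ?_, fun z hz => ?_⟩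
    · have hm1 : (1 : ℝ) ≤ 1 / ε := by
        refine le_trans ?_ hm
        have : 0 < m := i.pos
        exact_mod_cast this
      rw [norm_mul, norm_inv]
      have h1 : ‖G i z‖⁻¹ ≤ 1 / ε := by
        rw [one_div]
        exact inv_anti₀ hε (hi z hz)
      have h2 : ‖H i j z‖ * ‖G i z‖⁻¹ ≤ 1 / ε * (1 / ε) :=
        mul_le_mul (hHb i j z hz) h1 (inv_nonneg.2 (norm_nonneg _)) hε1.le
      refine h2.trans ?_
      have h3 : (1 : ℝ) ≤ (B + √(1 / ε * B ^ 2) + 1) * (2 / ε) := by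
        have h4 : 2 / ε = 2 * (1 / ε) := by ring
        rw [h4]
        nlinarith
      calc 1 / ε * (1 / ε) = 1 / ε * (1 / ε) * 1 := by ring
        _ ≤ 1 / ε * (1 / ε) * ((B + √(1 / ε * B ^ 2) + 1) * (2 / ε)) :=
            mul_le_mul_of_nonneg_left h3 (by positivity)
        _ = _ := by ring
    · have h1 : ∑ j, F j z * (H i j z * (G i z)⁻¹) = (∑ j, F j z * H i j z) * (G i z)⁻¹ := by
        rw [Finset.sum_mul]
        exact Finset.sum_congr rfl fun j _ => by ring
      rw [h1, ← hG i z hz, mul_inv_cancel₀ (hne z hz)]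
  · rcases U.eq_empty_or_nonempty with he | ⟨z0, hz0⟩
    · subst he
      exact ⟨fun _ _ => 0, fun _ => differentiableOn_const _, fun _ z hz => hz.elim,
        fun z hz => hz.elim⟩
    obtain ⟨k, hk1, hk2, hk3⟩ := comp_sol hU hc hGd hGb hε hεc hl hv
    have hcB : c ≤ 1 / ε * B ^ 2 := by
      refine (hl z0 hz0).trans ?_
      calc ∑ i, ‖G i z0‖ ^ 2 ≤ ∑ _i : Fin m, B ^ 2 :=
            Finset.sum_le_sum fun i _ => pow_le_pow_left₀ (norm_nonneg _) (hGb i z0 hz0) 2
        _ = m * B ^ 2 := by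
            rw [Finset.sum_const, Finset.card_univ, Fintype.card_fin, nsmul_eq_mul]
        _ ≤ _ := mul_le_mul_of_nonneg_right hm (sq_nonneg _)
    have hsc : √c ≤ √(1 / ε * B ^ 2) := Real.sqrt_le_sqrt hcB
    have hne : ∀ z ∈ U, ∑ i, G i z * k i z ≠ 0 := by
      intro z hz h0
      have := hk3 z hz
      rw [h0, norm_zero] at this
      linarith
    have hsd : DifferentiableOn ℂ (fun z => ∑ i, G i z * k i z) U :=
      DifferentiableOn.fun_sum fun i _ => (hGd i).mul (hk1 i)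
    refine ⟨fun j z => (∑ i, H i j z * k i z) * (∑ i, G i z * k i z)⁻¹, fun j =>
      (DifferentiableOn.fun_sum fun i _ => (hH i j).mul (hk1 i)).mul (hsd.inv hne),
      fun j z hz => ?_, fun z hz => ?_⟩
    · rw [norm_mul, norm_inv]
      have h1 : ‖∑ i, G i z * k i z‖⁻¹ ≤ 2 / ε := by
        have h2 := inv_anti₀ (by positivity) (hk3 z hz)
        rwa [inv_div] at h2
      have h2 : ‖∑ i, H i j z * k i z‖ ≤ 1 / ε * (1 / ε) * (B + √(1 / ε * B ^ 2) + 1) := by
        refine (norm_sum_le _ _).trans ?_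
        calc ∑ i, ‖H i j z * k i z‖ ≤ ∑ _i : Fin m, 1 / ε * (B + √(1 / ε * B ^ 2) + 1) := by
              refine Finset.sum_le_sum fun i _ => ?_
              rw [norm_mul]
              refine mul_le_mul (hHb i j z hz) ?_ (norm_nonneg _) hε1.le
              linarith [hk2 i z hz]
          _ = m * (1 / ε * (B + √(1 / ε * B ^ 2) + 1)) := by
              rw [Finset.sum_const, Finset.card_univ, Fintype.card_fin, nsmul_eq_mul]
          _ ≤ 1 / ε * (1 / ε * (B + √(1 / ε * B ^ 2) + 1)) := by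
              refine mul_le_mul_of_nonneg_right hm ?_
              positivity
          _ = _ := by ring
      exact mul_le_mul h2 h1 (inv_nonneg.2 (norm_nonneg _)) (by positivity)
    · have h1 : ∑ j, F j z * ((∑ i, H i j z * k i z) * (∑ i, G i z * k i z)⁻¹) =
          (∑ j, F j z * ∑ i, H i j z * k i z) * (∑ i, G i z * k i z)⁻¹ := by
        rw [Finset.sum_mul]
        exact Finset.sum_congr rfl fun j _ => by ring
      have h2 : ∑ j, F j z * ∑ i, H i j z * k i z = ∑ i, G i z * k i z := by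
        simp_rw [Finset.mul_sum]
        rw [Finset.sum_comm]
        refine Finset.sum_congr rfl fun i _ => ?_
        rw [hG i z hz, Finset.sum_mul]
        exact Finset.sum_congr rfl fun j _ => by ring
      rw [h1, h2, mul_inv_cancel₀ (hne z hz)]

/-- gluing of the solutions on the components -/
theorem glue [LocallyConnectedSpace E] {W : Set (E)} (hW : IsOpen W) {J : Type} [Fintype J] {F : J → E → ℂ} {Q : ℝ}
    (h : ∀ z ∈ W, Bez (connectedComponentIn W z) F Q) : Bez W F Q := by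
  classical
  obtain ⟨s, hs⟩ : ∃ s : Set (E) → J → E → ℂ, ∀ U, Bez U F Q →
      (∀ m, DifferentiableOn ℂ (s U m) U) ∧ (∀ m, ∀ z ∈ U, ‖s U m z‖ ≤ Q) ∧
        ∀ z ∈ U, ∑ m, F m z * s U m z = 1 := by
    refine ⟨fun U => if h : Bez U F Q then h.choose else fun _ _ => 0, fun U hU => ?_⟩
    simp only [dif_pos hU]
    exact hU.choose_spec
  have hmem : ∀ z ∈ W, z ∈ connectedComponentIn W z := fun z hz => mem_connectedComponentIn hz
  refine ⟨fun m z => s (connectedComponentIn W z) m z, fun m z hz => ?_, fun m z hz =>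
    (hs _ (h z hz)).2.1 m z (hmem z hz), fun z hz => (hs _ (h z hz)).2.2 z (hmem z hz)⟩
  have ho : IsOpen (connectedComponentIn W z) := hW.connectedComponentIn
  have h1 := ((hs _ (h z hz)).1 m).differentiableAt (ho.mem_nhds (hmem z hz))
  refine DifferentiableAt.differentiableWithinAt (h1.congr_of_eventuallyEq ?_)
  filter_upwards [ho.mem_nhds (hmem z hz)] with y hy
  rw [connectedComponentIn_eq hy]

end Pool.Agent.Helper60.CB
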