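import Mathlib
import Pool.Agent.Helper60.CB.Comp

/-!
The three alternatives for a connected open set, with uniform bounds of the solutions.
-/

set_option autoImplicit false

open MeasureTheory Metric Set Filter Topology Complex
open scoped ENNReal Real

namespace Pool.Agent.Helper60.CB

open Pool.Agent.Y263.LF (Bez Bez.mono)

/-- `G` is in the ideal of the `F j` on `U`, with coefficients bounded by `C` -/
def InI {E : Type} [NormedAddCommGroup E] [NormedSpace ℂ E] (U : Set E) (C : ℝ) {N : ℕ}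
    (F : Fin N → E → ℂ) (G : E → ℂ) : Prop :=
  ∃ H : Fin N → E → ℂ, (∀ j, DifferentiableOn ℂ (H j) U ∧ ∀ z ∈ U, ‖H j z‖ ≤ C) ∧
    ∀ z ∈ U, G z = ∑ j, F j z * H j z

/-- bounded below, small areas, or functions of one variable -/
def Alt {E : Type} [NormedAddCommGroup E] [NormedSpace ℂ E] (ε : ℝ) (U : Set E) {n : ℕ}
    (G : Fin n → E → ℂ) : Prop :=
  (∃ i, ∀ z ∈ U, ε ≤ ‖G i z‖) ∨
  (∃ c : ℝ, ε ≤ c ∧ (∀ z ∈ U, c ≤ ∑ i, ‖G i z‖ ^ 2) ∧
    ∑ i, volume (G i '' U) ≤ ENNReal.ofReal (π * (c - ε))) ∨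
  ∃ (h : E → ℂ) (φ : Fin n → ℂ → ℂ), DifferentiableOn ℂ h U ∧ (∀ z ∈ U, ‖h z‖ < 1) ∧
    (∀ i, DifferentiableOn ℂ (φ i) (ball 0 1)) ∧ (∀ i, ∀ w ∈ ball (0 : ℂ) 1, ‖φ i w‖ ≤ 1 / ε) ∧
    (∀ w ∈ ball (0 : ℂ) 1, ε ≤ ∑ i, ‖φ i w‖) ∧ ∀ i, ∀ z ∈ U, G i z = φ i (h z)

theorem comp_all (N : ℕ) {ε : ℝ} (hε : 0 < ε) : ∃ Q : ℝ, 0 ≤ Q ∧
    ∀ (E : Type) [NormedAddCommGroup E] [NormedSpace ℂ E] (U : Set E), IsOpen U →
      IsPreconnected U → ∀ F : Fin N → E → ℂ, (∀ j, DifferentiableOn ℂ (F j) U) →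
      (∀ j, ∀ z ∈ U, ‖F j z‖ ≤ 1) →
      (∃ (n : ℕ) (G : Fin n → E → ℂ), (n : ℝ) ≤ 1 / ε ∧ (∀ i, InI U (1 / ε) F (G i)) ∧
        Alt ε U G) → Bez U F Q := by
  obtain ⟨C, hC, HC⟩ := disc_cor ⌊1 / ε⌋₊ hε
  refine ⟨max (1 / ε * (1 / ε) * (N * 1 / ε + √(1 / ε * (N * 1 / ε) ^ 2) + 1) * (2 / ε))
    (1 / ε * (1 / ε) * C), le_max_of_le_right (by positivity), ?_⟩
  intro E _ _ U hU hUc F hF hFb hG
  obtain ⟨n, G, hn, hG, hA⟩ := hG
  choose H hH hGH using hG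
  have hrest : ((∃ i, ∀ z ∈ U, ε ≤ ‖G i z‖) ∨ ∃ c, ε ≤ c ∧ (∀ z ∈ U, c ≤ ∑ i, ‖G i z‖ ^ 2) ∧
      ∑ i, volume (G i '' U) ≤ ENNReal.ofReal (π * (c - ε))) →
      Bez U F (max (1 / ε * (1 / ε) * (N * 1 / ε + √(1 / ε * (N * 1 / ε) ^ 2) + 1) * (2 / ε))
        (1 / ε * (1 / ε) * C)) := fun h =>
    (comp_bez hU hUc hF zero_le_one hFb hε hn (fun i j => (hH i j).1) (fun i j => (hH i j).2)
      hGH h).mono subset_rfl (le_max_left _ _)
  rcases hA with h | h | ⟨h, φ, h1, h2, h3, h4, h5, h6⟩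
  · exact hrest (Or.inl h)
  · exact hrest (Or.inr h)
  · have hn' : n ≤ ⌊1 / ε⌋₊ := Nat.le_floor hn
    obtain ⟨g, g1, g2, g3⟩ := HC n hn' φ h3 h4 h5
    refine Bez.mono (C := 1 / ε * (1 / ε) * C) (Ω := U) ?_ subset_rfl (le_max_right _ _)
    have hhb : ∀ z ∈ U, h z ∈ ball (0 : ℂ) 1 := fun z hz => mem_ball_zero_iff.2 (h2 z hz)
    refine ⟨fun j z => ∑ i, H i j z * g i (h z), fun j =>
      DifferentiableOn.fun_sum fun i _ => (hH i j).1.mul ((g1 i).comp h1 hhb),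
      fun j z hz => ?_, fun z hz => ?_⟩
    · refine (norm_sum_le _ _).trans ?_
      calc ∑ i, ‖H i j z * g i (h z)‖ ≤ ∑ _i : Fin n, 1 / ε * C := by
            refine Finset.sum_le_sum fun i _ => ?_
            rw [norm_mul]
            exact mul_le_mul ((hH i j).2 z hz) (g2 i _ (hhb z hz)) (norm_nonneg _) (by positivity)
        _ = n * (1 / ε * C) := by
            rw [Finset.sum_const, Finset.card_univ, Fintype.card_fin, nsmul_eq_mul]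
        _ ≤ 1 / ε * (1 / ε * C) := mul_le_mul_of_nonneg_right hn (by positivity)
        _ = _ := by ring
    · have e1 : ∑ j, F j z * ∑ i, H i j z * g i (h z) = ∑ i, G i z * g i (h z) := by
        simp_rw [Finset.mul_sum]
        rw [Finset.sum_comm]
        refine Finset.sum_congr rfl fun i _ => ?_
        rw [hGH i z hz, Finset.sum_mul]
        exact Finset.sum_congr rfl fun j _ => by ring
      rw [e1, ← g3 (h z) (hhb z hz)]
      exact Finset.sum_congr rfl fun i _ => by rw [h6 i z hz]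

end Pool.Agent.Helper60.CB
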