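import Mathlib
import Pool.Agent.Helper60.CB.Alt
import Pool.Graph.R_pool_sql_team_seeded_b0a926ef.R223.Crn.Good
import Pool.Graph.R_pool_sql_team_seeded_1e53cb71.Helper85K9.Cor.Cell

/-!
Localisation of the corona problem on the ball of `ℂᵐ` to the connected components of cells defined
by finitely many functions taken from resolvable families.
-/

set_option autoImplicit false

open Metric Set Filter Topology WeakDual

namespace Pool.Agent.Helper60.CB

open Pool.Agent.TH310.Cor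
open Pool.Agent.H326R3.CB (Bt)
open Pool.Agent.Y263.LF (Bez Bez.mono)
open Pool.Agent.R223.Crn (R1 R1_Lo Rs AC good_all)
open Pool.Agent.Helper85K9.Cor (Id_univ' one_sub_inner')

/-- the cell of `z₀` near `p` -/
def cellc {m L : ℕ} (p : V m) (ε : ℝ) (u : Fin L → V m → ℂ) (z₀ : V m) : Set (V m) :=
  {z | z ∈ ball (0 : V m) 1 ∩ ball p ε ∧ ∀ l, ‖u l z - u l z₀‖ < ε}

/-- **Localisation to the components of cells**, for families. -/
theorem cell_res {m : ℕ} {I : Type} {N : ℕ} {F : I → Fin N → V m → ℂ} (hF : ∀ i j, HB (F i j))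
    {δ : ℝ} (hδ : 0 < δ) (hlow : ∀ i, ∀ z ∈ ball (0 : V m) 1, δ ≤ ∑ j, ‖F i j z‖)
    (hloc : ∀ p : V m, ‖p‖ = 1 → ∃ (L : ℕ) (𝔉 : Fin L → Set (V m → ℂ)) (ε Q : ℝ),
      (∀ l, Rs (𝔉 l)) ∧ 0 < ε ∧ 0 ≤ Q ∧ ∀ i, ∃ u : Fin L → V m → ℂ, (∀ l, u l ∈ 𝔉 l) ∧
        ∀ z₀ ∈ ball (0 : V m) 1 ∩ ball p ε,
          Bez (connectedComponentIn (cellc p ε u z₀) z₀) (F i) Q) :
    Solv F := by
  classical
  by_contra hns
  let tI : TopologicalSpace I := ⊥
  have dI : DiscreteTopology I := ⟨rfl⟩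
  obtain ⟨χ, hχ⟩ := exists_zero hF hns
  obtain ⟨p, hpχ⟩ : ∃ p, p = pt χ := ⟨_, rfl⟩
  have hp1 : ‖p‖ = 1 := by
    rcases lt_or_eq_of_le (pt_norm χ) with h3 | h3
    · exfalso
      have hpt : pt χ ∈ ball (0 : V m) 1 := by rw [mem_ball_zero_iff]; exact h3
      refine char_index (ι := Fin N) χ (fun o x => F x o (pt χ)) (C := 1)
        (fun o x => (hF x o).2 _ hpt) hδ (fun x => hlow x _ hpt) ?_
      intro o
      have h4 := char_interior χ h3 (El (f := fun x z => F x o z) (fun x => hF x o))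
      have h5 : χ (El (f := fun x z => F x o z) (fun x => hF x o)) = 0 := hχ o
      rw [h5] at h4
      refine Eq.trans (congrArg χ ?_) h4.symm
      exact ext' fun x => rfl
    · rw [hpχ]; exact h3
  obtain ⟨L, 𝔉, ε, Q, hRs, hε, hQ, hu⟩ := hloc p hp1
  choose u hu1 hu2 using hu
  have huB : ∀ i l, HB (u i l) := fun i l => (hRs l).hb _ (hu1 i l)
  -- the values of the character
  obtain ⟨c, hc⟩ : ∃ c : Fin L → ℂ, ∀ l, c l = χ (El (f := fun i => u i l) (fun i => huB i l)) :=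
    ⟨_, fun l => rfl⟩
  have hc1 : ∀ l, ‖c l‖ ≤ 1 := by
    intro l
    rw [hc l]
    refine (char_le χ _).trans (norm_le zero_le_one fun x => ?_)
    exact (huB x.1 l).2 x.2 x.2.2
  -- localisation
  obtain ⟨ε₁, hε₁⟩ : ∃ ε₁ : ℝ, ε₁ = min (ε / 4) (ε ^ 2 / 4) := ⟨_, rfl⟩
  have hε₁0 : 0 < ε₁ := by rw [hε₁]; positivity
  have hε₁a : ε₁ ≤ ε / 4 := by rw [hε₁]; exact min_le_left _ _
  have hε₁b : ε₁ ≤ ε ^ 2 / 4 := by rw [hε₁]; exact min_le_right _ _
  obtain ⟨C, -, HC⟩ := good_all (Fin L) 𝔉 hRs Unit (Fin N) ε₁ Q hε₁0 hQ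
  have hsol : ∀ i, Bez (ball 0 1) (Sum.elim (fun _ : Unit => Lo p)
      (Sum.elim (fun (l : Fin L) z => (u i l z - c l) / 2) (F i))) C := by
    intro i
    refine HC (fun _ => Lo p) (fun l z => (u i l z - c l) / 2) (F i) (fun _ => R1_Lo hp1)
      (fun l => ?_) (fun j => hF i j) ?_
    · refine ⟨u i l, hu1 i l, fun z => z, fun z => z, Pool.Agent.R223.Crn.Aut.id, 1 / 2,
        -(c l) / 2, ?_, fun z _ => by ring⟩
      rw [norm_div, norm_div, norm_neg, norm_one, show ‖(2 : ℂ)‖ = 2 by norm_num]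
      have := hc1 l
      linarith
    · have hLd : DifferentiableOn ℂ (Lo p) (ball 0 1) := (R1_Lo hp1).hb.1
      have hWo : IsOpen {z : V m | z ∈ ball (0 : V m) 1 ∧ (∀ _ : Unit, ‖Lo p z‖ < ε₁) ∧
          ∀ l, ‖(u i l z - c l) / 2‖ < ε₁} := by
        have e : {z : V m | z ∈ ball (0 : V m) 1 ∧ (∀ _ : Unit, ‖Lo p z‖ < ε₁) ∧
            ∀ l, ‖(u i l z - c l) / 2‖ < ε₁} =
            (ball (0 : V m) 1 ∩ (fun z => ‖Lo p z‖) ⁻¹' Iio ε₁) ∩
              ⋂ l, ball (0 : V m) 1 ∩ (fun z => ‖(u i l z - c l) / 2‖) ⁻¹' Iio ε₁ := by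
          ext z
          simp only [mem_setOf_eq, mem_inter_iff, mem_iInter, mem_preimage, mem_Iio]
          constructor
          · rintro ⟨h1, h2, h3⟩
            exact ⟨⟨h1, h2 ()⟩, fun l => ⟨h1, h3 l⟩⟩
          · rintro ⟨⟨h1, h2⟩, h3⟩
            exact ⟨h1, fun _ => h2, fun l => (h3 l).2⟩
        rw [e]
        refine (hLd.continuousOn.norm.isOpen_inter_preimage isOpen_ball isOpen_Iio).inter
          (isOpen_iInter_of_finite fun l => ?_)
        exact (((huB i l).1.continuousOn.sub continuousOn_const).div_const _).norm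
          |>.isOpen_inter_preimage isOpen_ball isOpen_Iio
      refine glue hWo fun z₀ hz₀ => ?_
      have hball : ∀ z ∈ ball (0 : V m) 1, ‖Lo p z‖ < ε₁ → z ∈ ball p ε := by
        intro z hz hzc
        rw [mem_ball, dist_eq_norm]
        by_contra hcon
        push Not at hcon
        have h7 := Lo_ge hp1 hz hε.le hcon
        linarith
      have hz₀' : z₀ ∈ ball (0 : V m) 1 ∩ ball p ε := ⟨hz₀.1, hball z₀ hz₀.1 (hz₀.2.1 ())⟩
      refine (hu2 i z₀ hz₀').mono (connectedComponentIn_mono z₀ ?_) le_rfl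
      rintro z ⟨hz, hz1, hzc⟩
      refine ⟨⟨hz, hball z hz (hz1 ())⟩, fun l => ?_⟩
      have hn : ∀ x : ℂ, ‖x / 2‖ = ‖x‖ / 2 := fun x => by
        rw [norm_div, show ‖(2 : ℂ)‖ = 2 by norm_num]
      have h6 := hzc l
      have h7 := hz₀.2.2 l
      rw [hn] at h6 h7
      have h8 : u i l z - u i l z₀ = (u i l z - c l) - (u i l z₀ - c l) := by ring
      rw [h8]
      have h9 := norm_sub_le (u i l z - c l) (u i l z₀ - c l)
      linarith
  have hFB : ∀ i (o : Unit ⊕ Fin L ⊕ Fin N), HB (Sum.elim (fun _ : Unit => Lo p)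
      (Sum.elim (fun (l : Fin L) z => (u i l z - c l) / 2) (F i)) o) := by
    intro i o
    rcases o with k | l | j
    · exact (R1_Lo hp1).hb
    · refine ⟨?_, fun z hz => ?_⟩
      · have h6 := (huB i l).1
        simp only [div_eq_mul_inv]
        exact (h6.sub_const _).mul_const _
      · change ‖(u i l z - c l) / 2‖ ≤ 1
        rw [norm_div, show ‖(2 : ℂ)‖ = 2 by norm_num, div_le_one (by norm_num)]
        have h6 := norm_sub_le (u i l z) (c l)
        have h7 := (huB i l).2 z hz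
        have h8 := hc1 l
        linarith
    · exact hF i j
  refine not_solv (F := fun i => Sum.elim (fun _ : Unit => Lo p)
      (Sum.elim (fun (l : Fin L) z => (u i l z - c l) / 2) (F i)))
    hFB χ univ (by rw [Id_univ', map_one]) ?_ ⟨C, fun i => hsol i.1⟩
  intro o
  rcases o with k | l | j
  · have h3 : El (f := fun (i : I) => Sum.elim (fun _ : Unit => Lo p)
          (Sum.elim (fun (l : Fin L) z => (u i l z - c l) / 2) (F i)) (Sum.inl k))
          (fun i => hFB i (Sum.inl k)) = (Cc (1/2) * (1 - Lw p) : HI I m) := by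
      apply ext'
      rintro ⟨x, z⟩
      change (1 - (inner ℂ p (z : V m) : ℂ)) / 2 = (1/2 : ℂ) * (1 - inner ℂ p (z : V m))
      ring
    rw [h3, map_mul, char_Cc, map_sub, map_one, char_Lw, ← hpχ, inner_self_eq_norm_sq_to_K, hp1]
    norm_num
  · have h3 : El (f := fun (i : I) => Sum.elim (fun _ : Unit => Lo p)
          (Sum.elim (fun (l : Fin L) z => (u i l z - c l) / 2) (F i)) (Sum.inr (Sum.inl l)))
          (fun i => hFB i (Sum.inr (Sum.inl l))) =
        (Cc (1/2) * (El (f := fun i => u i l) (fun i => huB i l) - Cc (c l)) : HI I m) := by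
      apply ext'
      rintro ⟨x, z⟩
      change (u x l (z : V m) - c l) / 2 = (1/2 : ℂ) * (u x l (z : V m) - c l)
      ring
    rw [h3, map_mul, map_sub, char_Cc, char_Cc, ← hc l, sub_self, mul_zero]
  · exact hχ j

end Pool.Agent.Helper60.CB
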